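import Pool.Agent.H44.SO.Targets

/-!
# MIN: two local maps with complementary equalities
-/

set_option autoImplicit false

namespace Pool.Agent.H33.SO.MIN

open Pool.Agent.H44.SO Pool.Agent.H57.SO Pool.Agent.H68.BP Pool.Agent.H58.SF Pool.Agent.H53.GC
  Pool.Agent.H53.NR Function
open Pool.Agent.H57.EQ (Cx Tour)
open Pool.Agent.H44.EQ (PolMap TInv BinPol ZA JSet sel kap)
open Classical

theorem pf_MIN : T_MIN := by
  intro σ V S X _ P 𝔸 M c _ s hI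
  unfold LInj at hI
  push Not at hI
  obtain ⟨n, q, hq, hγ⟩ := hI
  have hp1 : Loc P 𝔸 c q fun p => q p.1 :=
    ⟨fun l a b ha _ => ha, fun a b _ => rfl, fun a b a' b' _ _ _ h _ he => h (hq he)⟩
  have hp2 : Loc P 𝔸 c q fun p => q p.2 :=
    ⟨fun l a b _ hb => hb, fun a b h => h.symm, fun a b a' b' _ _ _ _ h he => h (hq he)⟩
  obtain ⟨good, hgood⟩ : ∃ good : Finset ((Fin n × Fin n) × (Fin n × Fin n)) → Prop,
      ∀ U, good U ↔ ∃ γ, Loc P 𝔸 c q γ ∧ ∀ u ∈ U, γ u.1 ≠ γ u.2 := ⟨_, fun _ => Iff.rfl⟩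
  obtain ⟨Q, hQ⟩ : ∃ Q : Set (Finset ((Fin n × Fin n) × (Fin n × Fin n))),
      ∀ U, U ∈ Q ↔ (∀ u ∈ U, (OfT P c q s u.1 ∧ OfT P c q s u.2) ∧ u.1 ≠ u.2) ∧ ¬ good U :=
    ⟨{U | (∀ u ∈ U, (OfT P c q s u.1 ∧ OfT P c q s u.2) ∧ u.1 ≠ u.2) ∧ ¬ good U}, fun _ => Iff.rfl⟩
  have hne : Q.Nonempty := by
    refine ⟨Finset.univ.filter fun u => (OfT P c q s u.1 ∧ OfT P c q s u.2) ∧ u.1 ≠ u.2,
      (hQ _).2 ⟨fun u hu => ?_, fun h => ?_⟩⟩
    · exact (Finset.mem_filter.1 hu).2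
    · obtain ⟨γ, h1, h2⟩ := (hgood _).1 h
      obtain ⟨p, p', hp, hp', he, hne⟩ := hγ γ h1
      exact h2 (p, p') (Finset.mem_filter.2 ⟨Finset.mem_univ _, ⟨hp, hp'⟩, hne⟩) he
  obtain ⟨U, hU, hmin⟩ := WellFounded.has_min
    (wellFounded_lt (α := Finset ((Fin n × Fin n) × (Fin n × Fin n)))) Q hne
  obtain ⟨hU1, hU2⟩ := (hQ U).1 hU
  have hsub : ∀ U', U' ⊂ U → good U' := by
    intro U' h
    by_contra hg
    exact hmin U' ((hQ _).2 ⟨fun u hu => hU1 u (h.1 hu), hg⟩) h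
  have hne' : U.Nonempty := by
    rw [Finset.nonempty_iff_ne_empty]
    rintro rfl
    exact hU2 ((hgood _).2 ⟨_, hp1, fun u hu => absurd hu (Finset.notMem_empty u)⟩)
  rcases hne'.exists_eq_singleton_or_nontrivial with ⟨u, hu⟩ | hnt
  · exfalso
    apply hU2
    rw [hgood, hu]
    have h1 : u.1 ≠ u.2 := (hU1 u (by rw [hu]; exact Finset.mem_singleton_self u)).2
    by_cases h2 : u.1.1 = u.2.1
    · refine ⟨_, hp2, fun u' hu' h3 => h1 (Prod.ext h2 ?_)⟩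
      rw [Finset.mem_singleton.1 hu'] at h3
      exact hq h3
    · refine ⟨_, hp1, fun u' hu' h3 => h2 ?_⟩
      rw [Finset.mem_singleton.1 hu'] at h3
      exact hq h3
  · obtain ⟨u0, h0, u1, h1, h01⟩ := hnt
    obtain ⟨γ0, hb0, hs0⟩ := (hgood _).1 (hsub (U.erase u0) (Finset.erase_ssubset h0))
    obtain ⟨γ1, hb1, hs1⟩ := (hgood _).1 (hsub (U.erase u1) (Finset.erase_ssubset h1))
    refine ⟨n, q, γ0, γ1, u0.1, u0.2, u1.1, u1.2, (U : Set _), hq, hb0, hb1, ?_, ?_, ?_, ?_, ?_, ?_⟩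
    · by_contra hcon
      refine hU2 ((hgood _).2 ⟨γ0, hb0, fun u hu => ?_⟩)
      by_cases h : u = u0
      · rw [h]; exact hcon
      · exact hs0 u (Finset.mem_erase.2 ⟨h, hu⟩)
    · exact hs1 u0 (Finset.mem_erase.2 ⟨h01, h0⟩)
    · by_contra hcon
      refine hU2 ((hgood _).2 ⟨γ1, hb1, fun u hu => ?_⟩)
      by_cases h : u = u1
      · rw [h]; exact hcon
      · exact hs1 u (Finset.mem_erase.2 ⟨h, hu⟩)
    · exact hs0 u1 (Finset.mem_erase.2 ⟨fun h => h01 h.symm, h1⟩)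
    · intro γ hγb
      by_contra hcon
      push Not at hcon
      exact hU2 ((hgood _).2 ⟨γ, hγb, fun u hu => hcon u (Finset.mem_coe.2 hu)⟩)
    · intro u hu
      refine ⟨(hU1 u (Finset.mem_coe.1 hu)).1.1, (hU1 u (Finset.mem_coe.1 hu)).1.2, ?_⟩
      by_cases h : u = u0
      · exact Or.inl h
      by_cases h' : u = u1
      · exact Or.inr (Or.inl h')
      exact Or.inr (Or.inr ⟨hs0 u (Finset.mem_erase.2 ⟨h, Finset.mem_coe.1 hu⟩),
        hs1 u (Finset.mem_erase.2 ⟨h', Finset.mem_coe.1 hu⟩)⟩)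

end Pool.Agent.H33.SO.MIN
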